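import Pool.Agent.helper14.AV.Spec3

/-!
# Project AV (MP_801ee0_co), row SDD
-/

set_option autoImplicit false

namespace Pool.Agent.helper14.AV

theorem SDD : SDD_stmt := by
  intro ι P Q A B h u
  obtain ⟨α, β, h0, hab, h1, hA, hB⟩ := h u
  refine ⟨β - α, by linarith, ?_, ?_, ?_⟩
  · intro X
    rw [hA, hB]
    simp only [D, Prod.fst_add, Prod.snd_add, Prod.smul_fst, Prod.smul_snd, Prod.fst_sub,
      Prod.snd_sub, smul_eq_mul]
    ring
  · refine ⟨1 - α, α, by linarith, h0, by ring, ?_⟩
    rw [hA]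
    module
  · refine ⟨1 - β, β, by linarith, by linarith, by ring, ?_⟩
    rw [hB]
    module

end Pool.Agent.helper14.AV
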